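import Pool.Agent.TH751.TheonF

/-!
# Borel strong theons for the theory of graphs without induced 4-cycles

Every weak (in particular every strong) `T_{C_4}`-on differs by a null set from a Borel strong
`T_{C_4}`-on.  This answers Q2 of the problem positively.

Idea. Let `N'` be the set of points `x` of `𝓔_2` such that the relative density of the complement
of `N` in the boxes around `x` tends to `0` when the levels of the two vertices tend to infinity
INDEPENDENTLY of each other.  If `N'` had an induced 4-cycle `a b c d` somewhere, then the two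
non-edges `ac` and `bd` are disjoint pairs, so boxes witnessing the two non-edges can be chosen
independently of one another, and the four edges hold with high probability in these boxes; this
gives a set of positive measure on which `N` has an induced 4-cycle.
-/

open MeasureTheory Set Filter Topology
open Pool.Agent.TH751.Theon

namespace Pool.Agent.Results.MP_351e8f_co.BorelStrongC4

lemma ae_model {N : Set (EV (Fin 2))} (h : WeakC4 N) (V : Type) [Fintype V] :
    ∀ᵐ y ∂(volume : Measure (EV V)), ModelC4 (rel N y) := by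
  have hsub : {y : EV V | ¬ ModelC4 (rel N y)} ⊆
      ⋃ M : {M : V → V → Prop // Canonical M ∧ ¬ ModelC4 M}, Tind M.1 N := by
    intro y hy
    exact mem_iUnion.2 ⟨⟨rel N y, canonical_rel N y, hy⟩, mem_Tind_rel N y⟩
  refine measure_mono_null hsub ?_
  rw [measure_iUnion_null_iff]
  rintro ⟨M, hM1, hM2⟩
  exact h V M hM1 hM2

lemma weak_of_strong {N : Set (EV (Fin 2))} (h : StrongC4 N) : WeakC4 N := by
  intro V _ M hM1 hM2
  exact measure_mono_null (h V M hM1 hM2) diagV_null

lemma ae_symm {N : Set (EV (Fin 2))} (h : WeakC4 N) :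
    ∀ᵐ x ∂(volume : Measure (EV (Fin 2))), pull sw x ∈ N ↔ x ∈ N := by
  filter_upwards [ae_model h (Fin 2)] with x hx
  have hsw0 : sw 0 = 1 := by simp [sw]
  have hsw1 : sw 1 = 0 := by simp [sw]
  constructor
  · intro hx1
    obtain ⟨α, h0, h1, hα⟩ := hx.2.1 1 0 ⟨sw, hsw0, hsw1, hx1⟩
    have : α = Function.Embedding.refl _ := emb_ext h0 h1
    rwa [this, pull_refl] at hα
  · intro hx1
    obtain ⟨α, h0, h1, hα⟩ := hx.2.1 0 1 ⟨Function.Embedding.refl _, rfl, rfl, by
      rwa [pull_refl]⟩
    have : α = sw := emb_ext (h0.trans hsw0.symm) (h1.trans hsw1.symm)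
    rwa [this] at hα

lemma exists_borel {N : Set (EV (Fin 2))} (hN : NullMeasurableSet N volume) (h : WeakC4 N) :
    ∃ N' : Set (EV (Fin 2)), MeasurableSet N' ∧ StrongC4 N' ∧ volume (symmDiff N N') = 0 := by
  obtain ⟨S0, hS0, hNS0⟩ : ∃ S0, MeasurableSet S0 ∧ N =ᵐ[volume] S0 := by
    obtain ⟨t, -, ht, hte⟩ := hN.exists_measurable_superset_ae_eq
    exact ⟨t, ht, hte.symm⟩
  set S : Set (EV (Fin 2)) := S0 ∩ pull sw ⁻¹' S0 with hSdef
  have hS : MeasurableSet S := hS0.inter (measurable_pull sw hS0)
  have hsym : ∀ x, pull sw x ∈ S ↔ x ∈ S := by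
    intro x
    simp only [hSdef, mem_inter_iff, mem_preimage, pull_sw_sw]
    tauto
  have h1 : ∀ᵐ x ∂(volume : Measure (EV (Fin 2))), x ∈ S0 ↔ x ∈ N := by
    filter_upwards [hNS0] with x hx
    exact (iff_of_eq hx).symm
  have h2 : ∀ᵐ x ∂(volume : Measure (EV (Fin 2))), pull sw x ∈ S0 ↔ pull sw x ∈ N := by
    have h3 := h1
    rw [← volume_pull sw] at h3
    exact ae_of_ae_map (measurable_pull sw).aemeasurable h3
  have hSN : ∀ᵐ x ∂(volume : Measure (EV (Fin 2))), x ∈ S ↔ x ∈ N := by
    filter_upwards [h1, h2, ae_symm h] with x hx1 hx2 hx3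
    simp only [hSdef, mem_inter_iff, mem_preimage]
    tauto
  obtain ⟨s, hs⟩ := exists_fast (S := S3 S) (measurable_ofTriple hS)
  refine ⟨Nb s S, measurableSet_Nb s hS, ?_, ?_⟩
  · refine strongC4_of_model fun V _ y _ => ⟨canonical_rel _ y, ?_, ?_⟩
    · rintro u v ⟨α, h0, h1, hα⟩
      refine ⟨sw.trans α, ?_, ?_, ?_⟩
      · simpa [sw] using h1
      · simpa [sw] using h0
      · rw [← pull_trans]
        exact Nb_symm hS hsym hα
    · intro a b c d hab hac had hbc hbd hcd
      rintro ⟨⟨α1, a10, a11, h1⟩, ⟨α2, a20, a21, h2⟩, ⟨α3, a30, a31, h3⟩, ⟨α4, a40, a41, h4⟩,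
        h5, h6⟩
      let β : Fin 4 ↪ V := ⟨![a, b, c, d], by
        intro i j hij
        fin_cases i <;> fin_cases j <;> simp_all⟩
      have hb0 : β 0 = a := rfl
      have hb1 : β 1 = b := rfl
      have hb2 : β 2 = c := rfl
      have hb3 : β 3 = d := rfl
      have e1 : α1 = (em 0 1 (by decide)).trans β := emb_ext a10 a11
      have e2 : α2 = (em 1 2 (by decide)).trans β := emb_ext a20 a21
      have e3 : α3 = (em 2 3 (by decide)).trans β := emb_ext a30 a31
      have e4 : α4 = (em 3 0 (by decide)).trans β := emb_ext a40 a41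
      rw [e1, ← pull_trans] at h1
      rw [e2, ← pull_trans] at h2
      rw [e3, ← pull_trans] at h3
      rw [e4, ← pull_trans] at h4
      refine core hS hSN (ae_model h (Fin 4)) (pull β y) h1 h2 h3 h4 ?_ ?_
      · intro h7
        rw [pull_trans] at h7
        exact h5 ⟨_, rfl, rfl, h7⟩
      · intro h7
        rw [pull_trans] at h7
        exact h6 ⟨_, rfl, rfl, h7⟩
  · rw [measure_symmDiff_eq_zero_iff]
    filter_upwards [Nb_ae_eq hS hsym hs, hSN] with x hx1 hx2
    exact propext (hx2.symm.trans hx1.symm)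

/-- **Q2.** Every strong `T_{C_4}`-on is a weak `T_{C_4}`-on, and every weak `T_{C_4}`-on `N`
differs by a null set from a Borel strong `T_{C_4}`-on `N'`. -/
theorem result :
    (∀ N : Set (EV (Fin 2)), StrongC4 N → WeakC4 N) ∧
    ∀ N : Set (EV (Fin 2)), NullMeasurableSet N volume → WeakC4 N →
      ∃ N' : Set (EV (Fin 2)), MeasurableSet[borel (EV (Fin 2))] N' ∧ StrongC4 N' ∧
        volume (symmDiff N N') = 0 := by
  refine ⟨fun N h => weak_of_strong h, fun N hN h => ?_⟩
  obtain ⟨N', h1, h2, h3⟩ := exists_borel hN h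
  refine ⟨N', ?_, h2, h3⟩
  have hb : (MeasurableSpace.pi : MeasurableSpace (EV (Fin 2))) = borel (EV (Fin 2)) :=
    BorelSpace.measurable_eq
  rw [← hb]
  exact h1

end Pool.Agent.Results.MP_351e8f_co.BorelStrongC4
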